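import Pool.Agent.helper29.NS.SpecD

/-!
# Project `ns:`, module AE: endpoint of an arc
-/

namespace NS

open MeasureTheory Filter Topology Set

/-- Arc points form an open set of angles. -/
theorem AE_open (Ω : Set (ℝ × ℝ)) (R : ℝ) : IsOpen {α : ℝ | InArc Ω R (cp R α)} := by
  rw [isOpen_iff_mem_nhds]
  rintro α ⟨δ, hδ, h⟩
  have hcont : Continuous fun β : ℝ => cp R β := by
    unfold cp
    fun_prop
  have hball : {β : ℝ | cp R β ∈ Dsc (cp R α) (δ / 2)} ∈ 𝓝 α := by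
    have hop : IsOpen (Dsc (cp R α) (δ / 2)) := isOpen_lt (by fun_prop) continuous_const
    refine hcont.continuousAt.preimage_mem_nhds (hop.mem_nhds ?_)
    show ((cp R α).1 - (cp R α).1) ^ 2 + ((cp R α).2 - (cp R α).2) ^ 2 < (δ / 2) ^ 2
    have : 0 < (δ / 2) ^ 2 := by positivity
    simpa using this
  refine Filter.mem_of_superset hball ?_
  intro β hβ
  refine ⟨δ / 2, by positivity, fun p hp => h p ?_⟩
  have h1 : ((cp R β).1 - (cp R α).1) ^ 2 + ((cp R β).2 - (cp R α).2) ^ 2 < (δ / 2) ^ 2 := hβ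
  have h2 : (p.1 - (cp R β).1) ^ 2 + (p.2 - (cp R β).2) ^ 2 < (δ / 2) ^ 2 := hp
  show (p.1 - (cp R α).1) ^ 2 + (p.2 - (cp R α).2) ^ 2 < δ ^ 2
  nlinarith [sq_nonneg (p.1 - (cp R β).1 - ((cp R β).1 - (cp R α).1)),
    sq_nonneg (p.2 - (cp R β).2 - ((cp R β).2 - (cp R α).2))]

/-- Angles. -/
theorem AE_angle {R : ℝ} (hR : 0 < R) {q : ℝ × ℝ} (hq : q ∈ Circ R) : ∃ α : ℝ, cp R α = q := by
  have hq' : q.1 ^ 2 + q.2 ^ 2 = R ^ 2 := hq
  set z : ℂ := ⟨q.1, q.2⟩ with hz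
  have hn : ‖z‖ = R := by
    rw [Complex.norm_eq_sqrt_sq_add_sq z]
    simp only [hz]
    rw [hq', Real.sqrt_sq hR.le]
  refine ⟨Complex.arg z, ?_⟩
  have h1 := Complex.norm_mul_cos_arg z
  have h2 := Complex.norm_mul_sin_arg z
  rw [hn] at h1 h2
  unfold cp
  rw [h1, h2]

theorem AE_period (R α : ℝ) (n : ℕ) : cp R (α + n * (2 * Real.pi)) = cp R α := by
  unfold cp
  rw [Real.cos_add_nat_mul_two_pi, Real.sin_add_nat_mul_two_pi]

theorem AE : AE_stmt := by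
  intro Ω R hR ⟨q1, hq1, h1⟩ ⟨q2, hq2, h2⟩
  obtain ⟨α1, rfl⟩ := AE_angle hR hq1
  obtain ⟨β, rfl⟩ := AE_angle hR hq2
  -- an angle larger than `α1`
  obtain ⟨n, hn⟩ : ∃ n : ℕ, α1 ≤ β + n * (2 * Real.pi) := by
    obtain ⟨n, hn⟩ := exists_nat_ge ((α1 - β) / (2 * Real.pi))
    refine ⟨n, ?_⟩
    have hpi : 0 < 2 * Real.pi := by positivity
    rw [div_le_iff₀ hpi] at hn
    linarith
  set S : Set ℝ := {α | α1 ≤ α ∧ ¬ InArc Ω R (cp R α)} with hS
  have hSn : S.Nonempty := ⟨β + n * (2 * Real.pi), hn, by rw [AE_period]; exact h2⟩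
  have hSc : IsClosed S := isClosed_Ici.inter (AE_open Ω R).isClosed_compl
  have hSb : BddBelow S := ⟨α1, fun α hα => hα.1⟩
  have hmem : sInf S ∈ S := hSc.csInf_mem hSn hSb
  refine ⟨α1, sInf S, ?_, ?_, hmem.2⟩
  · refine lt_of_le_of_ne hmem.1 ?_
    intro he
    apply hmem.2
    rw [← he]
    exact h1
  · intro α hα hα'
    by_contra hc
    exact absurd (csInf_le hSb ⟨hα, hc⟩) (not_le.2 hα')

end NS
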