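import Pool.Agent.helper29.NS.SpecD

/-!
# Project `ns:`, module AP: if all points of the circle are arc points, it is the outer boundary
-/

namespace NS

open MeasureTheory Filter Topology Set

theorem AP_Dsc_open (c : ℝ × ℝ) (R : ℝ) : IsOpen (Dsc c R) :=
  isOpen_lt (by fun_prop) continuous_const

theorem AP_Dsc_self (c : ℝ × ℝ) {R : ℝ} (hR : 0 < R) : c ∈ Dsc c R := by
  show (c.1 - c.1) ^ 2 + (c.2 - c.2) ^ 2 < R ^ 2
  have : 0 < R ^ 2 := by positivity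
  simpa using this

theorem AP : AP_stmt := by
  intro Ω R hR hop hcon hall
  -- the circle does not meet `Ω`
  have h1 : ∀ q ∈ Circ R, q ∉ Ω := by
    intro q hq hqΩ
    obtain ⟨δ, hδ, h⟩ := hall q hq
    have h2 := (h q (AP_Dsc_self q hδ)).1 hqΩ
    have h3 : q.1 ^ 2 + q.2 ^ 2 = R ^ 2 := hq
    linarith
  -- a point inside
  have h2 : ∃ p ∈ Ω, p.1 ^ 2 + p.2 ^ 2 < R ^ 2 := by
    have hq : ((R, 0) : ℝ × ℝ) ∈ Circ R := by
      show R ^ 2 + (0 : ℝ) ^ 2 = R ^ 2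
      ring
    obtain ⟨δ, hδ, h⟩ := hall _ hq
    set e : ℝ := min (δ / 2) (R / 2) with he
    have he0 : 0 < e := lt_min (by positivity) (by positivity)
    have heδ : e ≤ δ / 2 := min_le_left _ _
    have heR : e ≤ R / 2 := min_le_right _ _
    have hp : ((R - e, 0) : ℝ × ℝ) ∈ Dsc (R, 0) δ := by
      show (R - e - R) ^ 2 + ((0 : ℝ) - 0) ^ 2 < δ ^ 2
      nlinarith
    have hp2 : (R - e) ^ 2 + (0 : ℝ) ^ 2 < R ^ 2 := by nlinarith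
    exact ⟨(R - e, 0), (h _ hp).2 hp2, hp2⟩
  have hin : IsOpen {p : ℝ × ℝ | p.1 ^ 2 + p.2 ^ 2 < R ^ 2} :=
    isOpen_lt (by fun_prop) continuous_const
  have hout : IsOpen {p : ℝ × ℝ | R ^ 2 < p.1 ^ 2 + p.2 ^ 2} :=
    isOpen_lt continuous_const (by fun_prop)
  have hdis : Disjoint {p : ℝ × ℝ | p.1 ^ 2 + p.2 ^ 2 < R ^ 2}
      {p : ℝ × ℝ | R ^ 2 < p.1 ^ 2 + p.2 ^ 2} := by
    rw [Set.disjoint_left]
    intro p hp hp'
    exact lt_irrefl _ (lt_trans (show p.1 ^ 2 + p.2 ^ 2 < R ^ 2 from hp) hp')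
  have hsub : Ω ⊆ {p : ℝ × ℝ | p.1 ^ 2 + p.2 ^ 2 < R ^ 2} ∪
      {p : ℝ × ℝ | R ^ 2 < p.1 ^ 2 + p.2 ^ 2} := by
    intro p hp
    rcases lt_trichotomy (p.1 ^ 2 + p.2 ^ 2) (R ^ 2) with h | h | h
    · exact Or.inl h
    · exact absurd hp (h1 p h)
    · exact Or.inr h
  obtain ⟨p₀, hp₀, hp₀'⟩ := h2
  have hins : Ω ⊆ {p : ℝ × ℝ | p.1 ^ 2 + p.2 ^ 2 < R ^ 2} :=
    hcon.isPreconnected.subset_left_of_subset_union hin hout hdis hsub ⟨p₀, hp₀, hp₀'⟩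
  refine ⟨hR, hins, ?_⟩
  -- the annulus
  set U : Set (ℝ × ℝ) := {p | ∃ q ∈ Circ R, ∃ δ > 0, p ∈ Dsc q δ ∧
    ∀ p' ∈ Dsc q δ, (p' ∈ Ω ↔ p'.1 ^ 2 + p'.2 ^ 2 < R ^ 2)} with hU
  have hUop : IsOpen U := by
    have : U = ⋃ (q : ℝ × ℝ) (_ : q ∈ Circ R) (δ : ℝ) (_ : δ > 0)
        (_ : ∀ p' ∈ Dsc q δ, (p' ∈ Ω ↔ p'.1 ^ 2 + p'.2 ^ 2 < R ^ 2)), Dsc q δ := by
      ext p
      simp only [hU, Set.mem_iUnion]
      constructor
      · rintro ⟨q, hq, δ, hδ, hp, h⟩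
        exact ⟨q, hq, δ, hδ, h, hp⟩
      · rintro ⟨q, hq, δ, hδ, h, hp⟩
        exact ⟨q, hq, δ, hδ, hp, h⟩
    rw [this]
    exact isOpen_iUnion fun q => isOpen_iUnion fun _ => isOpen_iUnion fun δ =>
      isOpen_iUnion fun _ => isOpen_iUnion fun _ => AP_Dsc_open q δ
  have hCU : Circ R ⊆ U := by
    intro q hq
    obtain ⟨δ, hδ, h⟩ := hall q hq
    exact ⟨q, hq, δ, hδ, AP_Dsc_self q hδ, h⟩
  have hUΩ : ∀ p ∈ U, p.1 ^ 2 + p.2 ^ 2 < R ^ 2 → p ∈ Ω := by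
    rintro p ⟨q, -, δ, -, hp, h⟩ hlt
    exact (h p hp).2 hlt
  set K : Set (ℝ × ℝ) := {p : ℝ × ℝ | p.1 ^ 2 + p.2 ^ 2 ≤ R ^ 2} \ U with hK
  have hKc : IsCompact K := by
    refine Metric.isCompact_of_isClosed_isBounded ?_ ?_
    · exact (isClosed_le (by fun_prop) continuous_const).sdiff hUop
    · refine (Metric.isBounded_closedBall (x := (0 : ℝ × ℝ)) (r := R)).subset ?_
      rintro p ⟨hp, -⟩
      have hp' : p.1 ^ 2 + p.2 ^ 2 ≤ R ^ 2 := hp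
      rw [mem_closedBall_zero_iff, Prod.norm_def, max_le_iff, Real.norm_eq_abs, Real.norm_eq_abs]
      constructor
      · exact abs_le_of_sq_le_sq (by nlinarith [sq_nonneg p.2]) hR.le
      · exact abs_le_of_sq_le_sq (by nlinarith [sq_nonneg p.1]) hR.le
  rcases K.eq_empty_or_nonempty with hKe | hKn
  · refine ⟨0, le_rfl, hR, ?_⟩
    rintro p ⟨-, hp⟩
    refine hUΩ p ?_ hp
    by_contra hpU
    have : p ∈ K := ⟨hp.le, hpU⟩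
    rw [hKe] at this
    exact this
  · obtain ⟨p₁, hp₁, hmax⟩ := hKc.exists_isMaxOn hKn
      (f := fun p : ℝ × ℝ => p.1 ^ 2 + p.2 ^ 2) (by fun_prop)
    have hlt : p₁.1 ^ 2 + p₁.2 ^ 2 < R ^ 2 := by
      refine lt_of_le_of_ne hp₁.1 ?_
      intro he
      exact hp₁.2 (hCU he)
    refine ⟨√(p₁.1 ^ 2 + p₁.2 ^ 2), Real.sqrt_nonneg _, ?_, ?_⟩
    · rw [Real.sqrt_lt' hR]
      exact hlt
    · rintro p ⟨hp, hp'⟩
      rw [Real.sq_sqrt (by positivity)] at hp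
      refine hUΩ p ?_ hp'
      by_contra hpU
      have hpK : p ∈ K := ⟨hp'.le, hpU⟩
      have h3 : p.1 ^ 2 + p.2 ^ 2 ≤ p₁.1 ^ 2 + p₁.2 ^ 2 := hmax hpK
      linarith

end NS
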